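import Pool.Agent.HIP.Stmts

/-! HIP, row GKI: the specialised representation of the Galois group of the number field, with power
saving (edit of `Helper35_HIK/Hic.lean`). -/

set_option autoImplicit false

namespace Pool.Agent.HIP.H39

open Polynomial NumberField Matrix Pool.Agent.MTL Pool.Agent.MTL.H34 Pool.Agent.Helper78_MT
  Pool.Agent.HIK

universe u

theorem gks (hic : HciStmt) (dek : DekStmt) (gpf : GpfStmt) (fra : FraStmt) :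
    ∀ (K : Type) [Field K] [NumberField K] (d : Type) [Fintype d] [DecidableEq d] (ℓ : ℕ)
    [Fact ℓ.Prime] (ρ : GT →* GL d ℚ_[ℓ]), Continuous ρ → ∃ S : Set (𝓞 K), PZ K (1 / 4) S ∧
      ∀ a ∉ S, ∀ (ψ : K →+* QB) (ρa : MTN.Gk ψ →* GL d ℚ_[ℓ]), MTN.SpecK ρ ψ (a : K) ρa →
        Set.range ρa ⊆ Set.range ρ ∧
        ∃ Γ : Subgroup GT, Γ.FiniteIndex ∧ ρ '' (Γ : Set GT) ⊆ Set.range ρa := by
  classical
  intro K _ _ d _ _ ℓ _ ρ hρ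
  have hfin := H35.finite_emb K
  have hfr : ∀ φ : K →+* Om, ∃ U : Set (GL d ℚ_[ℓ]), IsOpen U ∧ 1 ∈ U ∧
      ∀ D : Subgroup (GL d ℚ_[ℓ]), IsClosed (D : Set (GL d ℚ_[ℓ])) → D ≤ (Gph φ).map ρ →
      (∀ g ∈ (Gph φ).map ρ, ∃ h ∈ D, h⁻¹ * g ∈ U) → D = (Gph φ).map ρ := by
    intro φ
    refine fra d ℓ ((Gph φ).map ρ) ?_
    rw [Subgroup.coe_map]
    exact (gpf K φ).2.1.isCompact.image hρ
  choose U hUo hU1 hU using hfr
  have hV : IsOpen (⋂ φ, U φ) := isOpen_iInter_of_finite hUo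
  obtain ⟨N, hN⟩ := ProfiniteGrp.exist_openNormalSubgroup_sub_open_nhds_of_one (G := GT)
    (U := ρ ⁻¹' (⋂ φ, U φ)) (hV.preimage hρ)
    (by rw [Set.mem_preimage, map_one]; exact Set.mem_iInter.2 hU1)
  obtain ⟨S, hS, hS2⟩ := hic K N.toSubgroup N.isNormal' N.isOpen'
  refine ⟨S, hS, fun a ha ψ ρa hsp => ?_⟩
  obtain ⟨π, hπ, hsp⟩ := hsp
  refine ⟨?_, ?_⟩
  · rintro g ⟨τ, rfl⟩
    obtain ⟨σ, hσ⟩ := (dek (ψ (a : K)) π hπ).2 τ (τ.2 (a : K))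
    exact ⟨σ, (hsp σ τ hσ).symm⟩
  · obtain ⟨φ, hφc, hφ⟩ := hS2 a ha ψ π hπ
    refine ⟨Gph φ, (gpf K φ).2.2, ?_⟩
    have hD : (decG π ⊓ Gph φ).map ρ = (Gph φ).map ρ := by
      apply hU φ
      · rw [Subgroup.coe_map, Subgroup.coe_inf]
        exact (((decG_closed π).inter (gpf K φ).2.1).isCompact.image hρ).isClosed
      · exact Subgroup.map_mono inf_le_right
      · rintro g ⟨γ, hγ, rfl⟩
        obtain ⟨σ, hσ, hσφ, hσγ⟩ := hφ γ hγ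
        refine ⟨ρ σ, Subgroup.mem_map_of_mem _ ⟨hσ, hσφ⟩, ?_⟩
        rw [← map_inv, ← map_mul]
        exact Set.mem_iInter.1 (hN hσγ) φ
    rintro g ⟨γ, hγ, rfl⟩
    have h5 : ρ γ ∈ (decG π ⊓ Gph φ).map ρ := by
      rw [hD]
      exact Subgroup.mem_map_of_mem _ hγ
    obtain ⟨σ, ⟨hσ, hσφ⟩, hσ2⟩ := h5
    obtain ⟨τ, hτ⟩ := hσ
    have hτK : τ ∈ MTN.Gk ψ := by
      intro c
      obtain ⟨b, hb1, hb2⟩ := hφc c
      have h6 : σ • b = b := by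
        apply Subtype.ext
        change σ (b : Om) = b
        rw [hb1]
        exact hσφ c
      rw [← hb2, ← hτ b, h6]
    rw [← hσ2]
    exact ⟨⟨τ, hτK⟩, hsp σ ⟨τ, hτK⟩ hτ⟩

theorem gki (hci : HciStmt) : GkiStmt.{u} := by
  intro K _ _ d _ _ ℓ _ ρ hρ
  obtain ⟨S, hS, hS2⟩ := gks hci dekA gpfA Pool.Agent.MTL.H33.fra K d ℓ ρ hρ
  refine ⟨S, hS, fun a ha ψ ρa hsp F _ _ => ?_⟩
  obtain ⟨h1, h2⟩ := hS2 a ha ψ ρa hsp
  exact monA.{u} d ℚ_[ℓ] GT (MTN.Gk ψ) ρ ρa h1 h2 F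

end Pool.Agent.HIP.H39
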