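import Pool.Agent.Helper91_HIP.DET
import Pool.Agent.Helper44_HIP.MNM
import Pool.Agent.Helper17_HIP.HSD
import Pool.Agent.Helper92_HIP.LNV
import Pool.Agent.Helper10_HIP.NRM
import Pool.Agent.Helper15_HIP.CLI
import Pool.Agent.Helper84_HIP.EXP
import Pool.Agent.Helper41_HIP.PZC
import Pool.Agent.Helper41_HIP.HIZ
import Pool.Agent.Helper13_HIP.PZD
import Pool.Agent.Helper41_HIP.ALI
import Pool.Agent.Helper67_HIP.EXI
import Pool.Agent.Helper28_HIP.HCI
import Pool.Agent.Helper40_HIP.SRI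
import Pool.Agent.Helper2_HIP.SBI
import Pool.Agent.Helper13_HIP.FNI
import Pool.Agent.Helper39_HIP.GKI

/-!
# Assembly of squad HIP, up to the rows CNI and AVZ (helper39)
-/

namespace Pool.Agent.HIP

open Pool.Agent.MTL Pool.Agent.HIK

universe u

theorem cli0 : CliStmt := H15.cli H91.det H44.mnm H17.hsd H92.lnv H10.nrm

theorem exi0 : ExiStmt := H67.exi H41.ali

theorem hci0 (hC : CniStmt) (hA : AvzStmt) : HciStmt := H28.hci exi0 (H41.hiz hC hA) H41.pzc

end Pool.Agent.HIP
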